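import Mathlib

set_option autoImplicit false

namespace Pool.Agent.Results.MP_55b43c_co.Q1

variable {V : Type}

/-- the robot's move `r → r'` gets it captured when the cops have just moved `c → c'` -/
def Captured {k : ℕ} (c c' : Fin k → V) (r r' : V) : Prop :=
  (∃ i, c' i = r') ∨ (r ≠ r' ∧ ∃ i, s(c i, c' i) = s(r, r'))

/-- cops at `c` (to move) can force the capture of the robot at `r` -/
inductive Win (G : SimpleGraph V) {k : ℕ} : (Fin k → V) → V → Prop
  | step (c c' : Fin k → V) (r : V) (hc : ∀ i, c' i = c i ∨ G.Adj (c i) (c' i))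
      (h : ∀ r', (r' = r ∨ G.Adj r r') → ¬ Captured c c' r r' → Win G c' r') : Win G c r

def CopWin (G : SimpleGraph V) (k : ℕ) : Prop := ∃ c : Fin k → V, ∀ r, Win G c r

/-- the cheating robot cop number -/
noncomputable def ccr (G : SimpleGraph V) : ℕ := sInf {k | CopWin G k}

lemma Win.succ {G : SimpleGraph V} {k : ℕ} (v : V) {c : Fin k → V} {r : V} (h : Win G c r) :
    Win G (Fin.cons v c : Fin (k + 1) → V) r := by
  induction h with
  | step c c' r hc _ ih =>
    refine Win.step _ (Fin.cons v c') r (fun i => ?_) (fun r' h1 h2 => ih r' h1 fun h3 => h2 ?_)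
    · refine Fin.cases (Or.inl rfl) (fun j => hc j) i
    · rcases h3 with ⟨i, h⟩ | ⟨h, i, h'⟩
      · exact Or.inl ⟨i.succ, h⟩
      · exact Or.inr ⟨h, i.succ, h'⟩

def gr (L : List (Fin 7 × Fin 7)) : SimpleGraph (Fin 7) := SimpleGraph.fromRel (fun a b => (a, b) ∈ L)

instance (L : List (Fin 7 × Fin 7)) : DecidableRel (gr L).Adj := fun a b =>
  inferInstanceAs (Decidable (a ≠ b ∧ ((a, b) ∈ L ∨ (b, a) ∈ L)))

def LG : List (Fin 7 × Fin 7) := [(0, 1), (0, 2), (0, 3), (0, 5), (1, 2), (1, 3), (1, 6), (2, 4), (3, 4), (4, 5), (5, 6)]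
def LH : List (Fin 7 × Fin 7) := [(0, 2), (0, 3), (0, 5), (1, 2), (1, 3), (1, 6), (2, 4), (3, 4), (4, 5), (5, 6)]

def cap (a b a' b' r r' : Fin 7) : Prop :=
  (a' = r' ∨ b' = r') ∨ (r ≠ r' ∧ (((a = r ∧ a' = r') ∨ (a = r' ∧ a' = r)) ∨
    ((b = r ∧ b' = r') ∨ (b = r' ∧ b' = r))))

instance (a b a' b' r r' : Fin 7) : Decidable (cap a b a' b' r r') := by
  unfold cap; infer_instance

lemma cap_iff (c c' : Fin 2 → Fin 7) (r r' : Fin 7) :
    Captured c c' r r' ↔ cap (c 0) (c 1) (c' 0) (c' 1) r r' := by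
  simp only [Captured, cap, Fin.exists_fin_two, Sym2.eq_iff]

def rk (a b r : Fin 7) : ℕ := 0x1545555044444415455551444444144444404444441443344044444452455555145555024444402444440243344024444415455555145555553555511255551125555013555411355451444444024444411255552244444222444422233441223344144444402444441125555222444422444442223344122334404444440243344013555422233442223344333334403333441443344024444411355451223344122334403333441333344 / 16 ^ (49 * a.1 + 7 * b.1 + r.1) % 16
def inv (a b r : Fin 7) : Bool := Nat.testBit 0x3f7efdfbf7efdffffefdfbffefffff7efdfff7efdffffffdfbf7effffffefdfbf7ffffff7efffff7efdfff (49 * a.1 + 7 * b.1 + r.1)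

lemma hG : ∀ a b r : Fin 7, rk a b r < 15 → ∃ a' : Fin 7, (a' = a ∨ (gr LG).Adj a a') ∧
    ∃ b' : Fin 7, (b' = b ∨ (gr LG).Adj b b') ∧ ∀ r' : Fin 7, (r' = r ∨ (gr LG).Adj r r') →
      ¬ cap a b a' b' r r' → rk a' b' r' < rk a b r := by decide +kernel

lemma hH : ∀ a b r : Fin 7, inv a b r = true → ∀ a' : Fin 7, (a' = a ∨ (gr LH).Adj a a') →
    ∀ b' : Fin 7, (b' = b ∨ (gr LH).Adj b b') → ∃ r' : Fin 7, (r' = r ∨ (gr LH).Adj r r') ∧
      ¬ cap a b a' b' r r' ∧ inv a' b' r' = true := by decide +kernel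

lemma winG (m : ℕ) : ∀ a b r : Fin 7, rk a b r < 15 → rk a b r < m → Win (gr LG) ![a, b] r := by
  induction m with
  | zero => intro a b r _ h; omega
  | succ m ih =>
    intro a b r h1 h2
    obtain ⟨a', ha, b', hb, h⟩ := hG a b r h1
    refine Win.step _ ![a', b'] r (fun i => ?_) (fun r' h3 h4 => ?_)
    · fin_cases i
      · exact ha
      · exact hb
    · have := h r' h3 (fun h5 => h4 ((cap_iff _ _ _ _).2 h5))
      exact ih a' b' r' (by omega) (by omega)

lemma loseH {c : Fin 2 → Fin 7} {r : Fin 7} (h : Win (gr LH) c r) : inv (c 0) (c 1) r ≠ true := by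
  induction h with
  | step c c' r hc _ ih =>
    intro hi
    obtain ⟨r', h1, h2, h3⟩ := hH _ _ _ hi (c' 0) (hc 0) (c' 1) (hc 1)
    exact ih r' h1 (fun h4 => h2 ((cap_iff _ _ _ _).1 h4)) h3

lemma conn (L : List (Fin 7 × Fin 7)) (p : Fin 7 → Fin 7) (d : Fin 7 → ℕ)
    (h : ∀ v, v = 0 ∨ ((gr L).Adj (p v) v ∧ d (p v) < d v)) : (gr L).Connected := by
  have : ∀ m v, d v < m → (gr L).Reachable 0 v := by
    intro m
    induction m with
    | zero => intro v h; omega
    | succ m ih =>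
      intro v hv
      rcases h v with rfl | ⟨h1, h2⟩
      · rfl
      · exact (ih _ (by omega)).trans h1.reachable
  exact ⟨fun u v => (this _ u (Nat.lt_succ_self _)).symm.trans (this _ v (Nat.lt_succ_self _))⟩

theorem result : ∃ (n : ℕ) (G H : SimpleGraph (Fin n)), G.Connected ∧ H.Connected ∧ H ≤ G ∧
    ccr G < ccr H := by
  have hle : gr LH ≤ gr LG := by
    have : ∀ a b, (gr LH).Adj a b → (gr LG).Adj a b := by decide +kernel
    exact fun a b => this a b
  have cH : (gr LH).Connected := conn LH ![0, 2, 0, 0, 2, 0, 5] ![0, 2, 1, 1, 2, 1, 2] (by decide +kernel)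
  refine ⟨7, gr LG, gr LH, cH.mono hle, cH, hle, ?_⟩
  have h2 : ccr (gr LG) ≤ 2 := Nat.sInf_le ⟨![0, 0], fun r =>
    winG 15 _ _ r (by revert r; decide +kernel) (by revert r; decide +kernel)⟩
  have n2 : ¬ CopWin (gr LH) 2 := by
    rintro ⟨c, hc⟩
    have : ∀ a b : Fin 7, ∃ r, inv a b r = true := by decide +kernel
    obtain ⟨r, hr⟩ := this (c 0) (c 1)
    exact loseH (hc r) hr
  have up : ∀ k, CopWin (gr LH) k → CopWin (gr LH) (k + 1) :=
    fun k ⟨c, hc⟩ => ⟨Fin.cons 0 c, fun r => (hc r).succ 0⟩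
  have h7 : CopWin (gr LH) 7 := ⟨id, fun r => Win.step _ id r (fun _ => Or.inl rfl)
    (fun r' _ h => absurd (Or.inl ⟨r', rfl⟩) h)⟩
  have hm : CopWin (gr LH) (ccr (gr LH)) := Nat.sInf_mem (s := {k | CopWin (gr LH) k}) ⟨7, h7⟩
  by_contra hn
  have : ccr (gr LH) = 0 ∨ ccr (gr LH) = 1 ∨ ccr (gr LH) = 2 := by omega
  rcases this with e | e | e <;> rw [e] at hm
  · exact n2 (up _ (up _ hm))
  · exact n2 (up _ hm)
  · exact n2 hm

end Pool.Agent.Results.MP_55b43c_co.Q1
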